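import Mathlib
import Pool.Agent.P.MP_250062_co.Main

namespace Pool.Agent.Results.MP_250062_co.OddThreeEdgeColouring

/-- Every 3-connected graph of odd order with minimum degree at least 4 has an edge colouring with
three colours in which every vertex meets zero or an odd number of edges of each colour. -/
theorem result {V : Type*} [Fintype V] [DecidableEq V] (G : SimpleGraph V) [DecidableRel G.Adj]
    (_hcard : 3 < Fintype.card V)
    (hconn : ∀ S : Finset V, S.card < 3 → (G.induce (S : Set V)ᶜ).Connected)
    (hodd : Odd (Fintype.card V)) (hδ : 4 ≤ G.minDegree) :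
    ∃ c : Sym2 V → Fin 3, ∀ (v : V) (i : Fin 3),
      ((G.incidenceFinset v).filter fun e => c e = i).card = 0 ∨
        Odd ((G.incidenceFinset v).filter fun e => c e = i).card :=
  Pool.Agent.P.MP_250062_co.col_main hconn hodd hδ

end Pool.Agent.Results.MP_250062_co.OddThreeEdgeColouring
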